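import Pool.Agent.Helper76.FT.GoalsG

set_option autoImplicit false

namespace Pool.Agent.Helper75.FT

open Pool.Agent.Helper76.FT
open Complex Set Filter Topology

theorem isOpen_Str (ρ : ℝ) : IsOpen (Str ρ) :=
  isOpen_lt (continuous_abs.comp Complex.continuous_im) continuous_const

theorem ana {w : ℂ → ℝ → ℂ} {ρ : ℝ} (hρ : 0 < ρ) (hw : SH w ρ) {t : ℝ} (ht : t ∈ Icc (0:ℝ) 1)
    (q : ℝ) : AnalyticAt ℂ (fun ζ : ℂ => w ((q : ℂ) + ζ) t) 0 := by
  have h1 : AnalyticAt ℂ (fun z => w z t) ((q : ℂ) + 0) := by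
    apply (hw.hol t ht).analyticAt
    apply (isOpen_Str ρ).mem_nhds
    show |((q : ℂ) + 0).im| < ρ
    simpa using hρ
  exact h1.comp (f := fun ζ : ℂ => (q : ℂ) + ζ) (analyticAt_const.add analyticAt_id)

theorem TH.congr {w : ℂ → ℝ → ℂ} {f g : ℝ × ℝ → ℂ} {z₁ : ℝ × ℝ} (hf : TH w f z₁)
    (h : ∀ᶠ z in 𝓝 z₁, g z = f z) : TH w g z₁ := by
  obtain ⟨k, hk, he⟩ := hf
  refine ⟨k, hk, ?_⟩
  filter_upwards [h, he] with z h1 h2
  rw [h1, h2]

/-- the position moved to the time of `z₁` -/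
theorem pos_eq (w : ℂ → ℝ → ℂ) (z₁ z : ℝ × ℝ) (s : ℝ) :
    (z.1 : ℂ) + ((s : ℂ) - z.2) * wt w z
      = (z₁.1 : ℂ) + chi w z₁ z + ((s : ℂ) - z₁.2) * wt w z := by
  unfold chi
  push_cast
  ring

theorem ft_thx : GReg → GChart → GOM → GTHX := by
  intro hReg hChart hOM S hS δ ρ w c hδ hw t₀ ht₀ z₁ hz1 hz2
  obtain ⟨hmap, hni, hint⟩ := hChart S hS δ ρ w c hw z₁
  have hcomp := (hOM S hS δ ρ w c hw z₁).2
  have hopen := (hReg S hS).2.2.2.2.2.1
  have hmove := (hReg S hS).2.2.2.2.2.2.2.2.1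
  have hchi : Tendsto (chi w z₁) (𝓝 z₁) (𝓝 0) := le_of_eq hmap
  have hstr : ∀ᶠ z in 𝓝 z₁, (z₁.1 : ℂ) + chi w z₁ z ∈ Str ρ := by
    have h1 : Tendsto (fun z => (z₁.1 : ℂ) + chi w z₁ z) (𝓝 z₁) (𝓝 ((z₁.1 : ℂ) + 0)) :=
      tendsto_const_nhds.add hchi
    apply h1.eventually
    apply (isOpen_Str ρ).mem_nhds
    show |((z₁.1 : ℂ) + 0).im| < ρ
    simpa using hw.hρ
  have hsnd : Tendsto (fun z : ℝ × ℝ => z.2) (𝓝 z₁) (𝓝 z₁.2) := continuous_snd.tendsto z₁
  -- linear combinations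
  have hlin : ∀ (f g : ℝ × ℝ → ℂ) (a : ℂ), TH w f z₁ → TH w g z₁ →
      TH w (fun z => f z + a * g z) z₁ := by
    intro f g a hf hg
    exact hcomp f g (fun p => p.1 + a * p.2) univ isOpen_univ
      (by fun_prop) (mem_univ _) hf hg
  have hTq : TH w (fun z => (z₁.1 : ℂ) + chi w z₁ z) z₁ :=
    ⟨fun ζ => (z₁.1 : ℂ) + ζ, analyticAt_const.add analyticAt_id, Eventually.of_forall
      (fun _ => rfl)⟩
  have hTw : ∀ t ∈ Icc (0:ℝ) 1, TH w (fun z => w ((z₁.1 : ℂ) + chi w z₁ z) t) z₁ := fun t ht =>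
    ⟨fun ζ => w ((z₁.1 : ℂ) + ζ) t, ana hw.hρ hw.sh ht z₁.1, Eventually.of_forall (fun _ => rfl)⟩
  have hwim : ∀ t ∈ Icc (0:ℝ) 1, |(w (z₁.1 : ℂ) t).im| < S.r := by
    intro t ht
    obtain ⟨h1, h2⟩ := hw.pos z₁.1 t ht
    rw [abs_of_pos h1]
    linarith
  rcases lt_trichotomy z₁.2 0 with h0 | h0 | h0
  · -- `-1 < t₁ < 0`
    have hfr : Int.fract z₁.2 = z₁.2 + 1 := by
      rw [Int.fract_eq_iff]
      exact ⟨by linarith, by linarith, -1, by push_cast; ring⟩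
    have ht : z₁.2 + 1 ∈ Icc (0:ℝ) 1 := ⟨by linarith, by linarith⟩
    have hnint : ∀ n : ℤ, z₁.2 ≠ n := by
      intro n hn
      rw [hn] at hz1 h0
      have h1 : (-1 : ℤ) < n := by exact_mod_cast hz1
      have h2 : n < (0 : ℤ) := by exact_mod_cast h0
      omega
    have hwt : ∀ᶠ z in 𝓝 z₁, wt w z = w ((z₁.1 : ℂ) + chi w z₁ z) (z₁.2 + 1) := by
      rw [← hfr]
      exact hni hnint
    have hneg : ∀ᶠ z in 𝓝 z₁, z.2 < 0 := hsnd.eventually (gt_mem_nhds h0)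
    have hTwt : TH w (wt w) z₁ := TH.congr (hTw _ ht) hwt
    have hTx0 : TH w (fun z => (z.1 : ℂ) - z.2 * wt w z) z₁ := by
      apply TH.congr (hlin _ _ (-(z₁.2 : ℂ)) hTq hTwt)
      refine Eventually.of_forall (fun z => ?_)
      have := pos_eq w z₁ z 0
      push_cast at this
      linear_combination this
    have hval : (((z₁.1 : ℂ) - z₁.2 * wt w z₁, wt w z₁) : ℂ × ℂ) ∈ S.Nb 1 S.r := by
      have h1 : wt w z₁ = w (z₁.1 : ℂ) (z₁.2 + 1) := by
        unfold wt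
        rw [hfr]
      rw [h1]
      have h2 := hmove (z₁.2 + 1) ht 1 (by norm_num) z₁.1 (w (z₁.1 : ℂ) (z₁.2 + 1))
        (hw.reg z₁.1 _ ht) (hwim _ ht)
      convert h2 using 2
      push_cast
      ring
    have hTom' : TH w (fun z => S.K ((z.1 : ℂ) - z.2 * wt w z) (wt w z)) z₁ :=
      hcomp (fun z => (z.1 : ℂ) - z.2 * wt w z) (wt w) (fun p => S.K p.1 p.2) (S.Nb 1 S.r)
        (hopen 1 S.r) hS.Khol hval hTx0 hTwt
    have hTom : TH w (OmF S w) z₁ := by
      apply TH.congr hTom'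
      filter_upwards [hneg] with z hz
      unfold OmF
      rw [if_pos hz]
    refine ⟨hTom, ?_, ?_⟩
    · apply TH.congr (hlin _ _ (t₀ : ℂ) hTx0 hTom)
      filter_upwards [hneg] with z hz
      unfold XF
      rw [if_pos hz]
    · intro h
      exact absurd ht₀.1 (by rw [← h]; linarith)
  · -- `t₁ = 0`
    have hz10 := hint 0 (by rw [h0]; norm_num)
    have hlt1 : ∀ᶠ z in 𝓝 z₁, z.2 < 1 := hsnd.eventually (gt_mem_nhds (by rw [h0]; norm_num))
    have h00 : (0:ℝ) ∈ Icc (0:ℝ) 1 := by norm_num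
    have h11 : (1:ℝ) ∈ Icc (0:ℝ) 1 := by norm_num
    have hom : ∀ᶠ z in 𝓝 z₁, OmF S w z = w ((z₁.1 : ℂ) + chi w z₁ z) 0 := by
      filter_upwards [hz10, hlt1, hstr] with z hz hz1' hzs
      unfold OmF
      by_cases hzn : z.2 < 0
      · rw [if_pos hzn]
        have h1 : (z.1 : ℂ) - z.2 * wt w z = (z₁.1 : ℂ) + chi w z₁ z := by
          have := pos_eq w z₁ z 0
          rw [h0] at this
          push_cast at this
          linear_combination this
        rw [h1, hz.2 (by rw [h0]; exact hzn)]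
        exact (hw.kick _ hzs).symm
      · rw [if_neg hzn, if_pos hz1']
        exact hz.1 (by rw [h0]; exact not_lt.1 hzn)
    have hXF : ∀ᶠ z in 𝓝 z₁, XF S w t₀ z
        = ((z₁.1 : ℂ) + chi w z₁ z) + (t₀ : ℂ) * w ((z₁.1 : ℂ) + chi w z₁ z) 0 := by
      filter_upwards [hz10, hlt1, hom] with z hz hz1' hzo
      unfold XF
      by_cases hzn : z.2 < 0
      · rw [if_pos hzn, hzo]
        have h1 : (z.1 : ℂ) - z.2 * wt w z = (z₁.1 : ℂ) + chi w z₁ z := by
          have := pos_eq w z₁ z 0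
          rw [h0] at this
          push_cast at this
          linear_combination this
        rw [h1]
      · rw [if_neg hzn, if_pos hz1', pos_eq w z₁ z t₀, h0,
          hz.1 (by rw [h0]; exact not_lt.1 hzn)]
        push_cast
        ring
    refine ⟨TH.congr (hTw 0 h00) hom, TH.congr (hlin _ _ (t₀ : ℂ) hTq (hTw 0 h00)) hXF, ?_⟩
    intro h
    have ht0 : t₀ = 0 := by rw [← h, h0]
    filter_upwards [hom, hXF] with z hz hz'
    rw [hz, hz', ht0]
    refine ⟨by push_cast; ring, rfl⟩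
  · rcases lt_trichotomy z₁.2 1 with h1 | h1 | h1
    · -- `0 < t₁ < 1`
      have hfr : Int.fract z₁.2 = z₁.2 := Int.fract_eq_self.2 ⟨h0.le, h1⟩
      have ht : z₁.2 ∈ Icc (0:ℝ) 1 := ⟨h0.le, h1.le⟩
      have hnint : ∀ n : ℤ, z₁.2 ≠ n := by
        intro n hn
        rw [hn] at h0 h1
        have h2 : (0 : ℤ) < n := by exact_mod_cast h0
        have h3 : n < (1 : ℤ) := by exact_mod_cast h1
        omega
      have hwt : ∀ᶠ z in 𝓝 z₁, wt w z = w ((z₁.1 : ℂ) + chi w z₁ z) z₁.2 := by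
        have := hni hnint
        rwa [hfr] at this
      have hpos : ∀ᶠ z in 𝓝 z₁, 0 < z.2 := hsnd.eventually (lt_mem_nhds h0)
      have hlt1 : ∀ᶠ z in 𝓝 z₁, z.2 < 1 := hsnd.eventually (gt_mem_nhds h1)
      have hom : ∀ᶠ z in 𝓝 z₁, OmF S w z = w ((z₁.1 : ℂ) + chi w z₁ z) z₁.2 := by
        filter_upwards [hwt, hpos, hlt1] with z hz hz0 hz1'
        unfold OmF
        rw [if_neg (not_lt.2 hz0.le), if_pos hz1', hz]
      have hXF : ∀ᶠ z in 𝓝 z₁, XF S w t₀ z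
          = ((z₁.1 : ℂ) + chi w z₁ z)
            + ((t₀ : ℂ) - z₁.2) * w ((z₁.1 : ℂ) + chi w z₁ z) z₁.2 := by
        filter_upwards [hwt, hpos, hlt1] with z hz hz0 hz1'
        unfold XF
        rw [if_neg (not_lt.2 hz0.le), if_pos hz1', pos_eq w z₁ z t₀, hz]
      refine ⟨TH.congr (hTw _ ht) hom, TH.congr (hlin _ _ ((t₀ : ℂ) - z₁.2) hTq (hTw _ ht)) hXF, ?_⟩
      intro h
      filter_upwards [hom, hXF] with z hz hz'
      rw [hz, hz', h]
      refine ⟨by ring, rfl⟩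
    · -- `t₁ = 1`
      have hz10 := hint 1 (by rw [h1]; norm_num)
      have hpos : ∀ᶠ z in 𝓝 z₁, 0 < z.2 := hsnd.eventually (lt_mem_nhds h0)
      have h11 : (1:ℝ) ∈ Icc (0:ℝ) 1 := by norm_num
      have hx1 : ∀ z : ℝ × ℝ, (z.1 : ℂ) + (1 - z.2) * wt w z = (z₁.1 : ℂ) + chi w z₁ z := by
        intro z
        have := pos_eq w z₁ z 1
        rw [h1] at this
        push_cast at this
        linear_combination this
      have hom : ∀ᶠ z in 𝓝 z₁, OmF S w z = w ((z₁.1 : ℂ) + chi w z₁ z) 1 := by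
        filter_upwards [hz10, hpos, hstr] with z hz hz0 hzs
        unfold OmF
        rw [if_neg (not_lt.2 hz0.le)]
        by_cases hzn : z.2 < 1
        · rw [if_pos hzn]
          exact hz.2 (by rw [h1]; exact hzn)
        · rw [if_neg hzn, hx1, hz.1 (by rw [h1]; exact not_lt.1 hzn), hw.kick _ hzs]
          exact hS.KiK (_, _) (hw.nb _ hzs 1 h11)
      have hXF : ∀ᶠ z in 𝓝 z₁, XF S w t₀ z
          = ((z₁.1 : ℂ) + chi w z₁ z)
            + ((t₀ : ℂ) - 1) * w ((z₁.1 : ℂ) + chi w z₁ z) 1 := by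
        filter_upwards [hz10, hpos, hom] with z hz hz0 hzo
        unfold XF
        rw [if_neg (not_lt.2 hz0.le)]
        by_cases hzn : z.2 < 1
        · rw [if_pos hzn, pos_eq w z₁ z t₀, hz.2 (by rw [h1]; exact hzn), h1]
          push_cast
          ring
        · rw [if_neg hzn, hx1, hzo]
      refine ⟨TH.congr (hTw 1 h11) hom, TH.congr (hlin _ _ ((t₀ : ℂ) - 1) hTq (hTw 1 h11)) hXF, ?_⟩
      intro h
      have ht0 : t₀ = 1 := by rw [← h, h1]
      filter_upwards [hom, hXF] with z hz hz'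
      rw [hz, hz', ht0]
      refine ⟨by push_cast; ring, rfl⟩
    · -- `1 < t₁ < 2`
      have hfr : Int.fract z₁.2 = z₁.2 - 1 := by
        rw [Int.fract_eq_iff]
        exact ⟨by linarith, by linarith, 1, by push_cast; ring⟩
      have ht : z₁.2 - 1 ∈ Icc (0:ℝ) 1 := ⟨by linarith, by linarith⟩
      have hnint : ∀ n : ℤ, z₁.2 ≠ n := by
        intro n hn
        rw [hn] at h1 hz2
        have h3 : (1 : ℤ) < n := by exact_mod_cast h1
        have h4 : n < (2 : ℤ) := by exact_mod_cast hz2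
        omega
      have hwt : ∀ᶠ z in 𝓝 z₁, wt w z = w ((z₁.1 : ℂ) + chi w z₁ z) (z₁.2 - 1) := by
        rw [← hfr]
        exact hni hnint
      have hgt : ∀ᶠ z in 𝓝 z₁, 1 < z.2 := hsnd.eventually (lt_mem_nhds h1)
      have hTwt : TH w (wt w) z₁ := TH.congr (hTw _ ht) hwt
      have hTx1 : TH w (fun z => (z.1 : ℂ) + (1 - z.2) * wt w z) z₁ := by
        apply TH.congr (hlin _ _ (1 - (z₁.2 : ℂ)) hTq hTwt)
        refine Eventually.of_forall (fun z => ?_)
        have := pos_eq w z₁ z 1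
        push_cast at this
        linear_combination this
      have hval : (((z₁.1 : ℂ) + (1 - z₁.2) * wt w z₁, wt w z₁) : ℂ × ℂ) ∈ S.Nb 0 S.r := by
        have h2 : wt w z₁ = w (z₁.1 : ℂ) (z₁.2 - 1) := by
          unfold wt
          rw [hfr]
        rw [h2]
        have h3 := hmove (z₁.2 - 1) ht 0 (by norm_num) z₁.1 (w (z₁.1 : ℂ) (z₁.2 - 1))
          (hw.reg z₁.1 _ ht) (hwim _ ht)
        convert h3 using 2
        push_cast
        ring
      have hTom' : TH w (fun z => S.Ki ((z.1 : ℂ) + (1 - z.2) * wt w z) (wt w z)) z₁ :=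
        hcomp (fun z => (z.1 : ℂ) + (1 - z.2) * wt w z) (wt w) (fun p => S.Ki p.1 p.2)
          (S.Nb 0 S.r) (hopen 0 S.r) hS.Kihol hval hTx1 hTwt
      have hTom : TH w (OmF S w) z₁ := by
        apply TH.congr hTom'
        filter_upwards [hgt] with z hz
        unfold OmF
        rw [if_neg (by linarith), if_neg (by linarith)]
      refine ⟨hTom, ?_, ?_⟩
      · apply TH.congr (hlin _ _ ((t₀ : ℂ) - 1) hTx1 hTom)
        filter_upwards [hgt] with z hz
        unfold XF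
        rw [if_neg (by linarith), if_neg (by linarith)]
      · intro h
        exact absurd ht₀.2 (by rw [← h]; linarith)

end Pool.Agent.Helper75.FT
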